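import Pool.Agent.Y687.MQ.Disc

/-!
Adjunction of a new square root of any sign.
-/

set_option autoImplicit false
set_option linter.style.haveILetI false

open Finset

namespace Pool.Agent.Y687.MQ

open Pool.Agent.Y687
open Pool.Agent.Z700 (pr Yd lres xrt)
open Pool.Agent.Z701 (Sp Nr ind)
open Pool.Agent.Y232.ZI (lres_symm lres_val)

theorem ind_union {T R : Finset ℕ} (h : Disjoint T R) (p : ℕ) : ind (T ∪ R) p = ind T p + ind R p := by
  unfold ind
  exact Finset.sum_union h

theorem DD_union {T R : Finset ℕ} (h : Disjoint T R) : DD (T ∪ R) = DD T * DD R := by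
  unfold DD
  exact Finset.prod_union h

/-- adjunction of a new prime and of inert primes -/
theorem Ad.extR {Cl : Finset ℕ → Prop} {P T R : Finset ℕ} (h : Ad Cl P T) {p : ℕ} (hp : Sp p)
    (hR : ∀ r ∈ R, InertT r) (hpP : p ∉ P) (hTR : Disjoint T R) (hCl : Cl (T ∪ R))
    (h1 : ∀ l ∈ P, lres p l = 0) (h2 : ∀ q ∈ T, lres p q = 0) (h3 : ∀ l ∈ P, ∀ r ∈ R, lres l r = 0)
    (h6 : Odd (xrt p + ind R p)) : Ad Cl (insert p P) (T ∪ R) := by
  refine ⟨?_, ?_, hCl, ?_⟩
  · intro q hq
    rcases Finset.mem_insert.1 hq with rfl | hq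
    · exact hp
    · exact h.sp q hq
  · intro q hq
    rcases Finset.mem_union.1 hq with hq | hq
    · exact h.inn q hq
    · exact hR q hq
  · refine yd_insert hpP h1 (fun k hk => by rw [lres_symm]; exact h1 k hk) ?_ ?_ h.odd
    · intro k hk
      have e : ind R k = 0 := by
        unfold ind
        exact Finset.sum_eq_zero (h3 k hk)
      simp only [ind_union hTR]
      rw [e, add_zero]
    · have h7 : ind T p = 0 := by
        unfold ind
        exact Finset.sum_eq_zero h2
      simp only [ind_union hTR]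
      rw [h7, zero_add]
      exact h6

theorem disc_extR {P T R : Finset ℕ} {p : ℕ} (hpP : p ∉ P) (hTR : Disjoint T R) :
    disc (insert p P) (T ∪ R) = (p * DD R : ℤ) * disc P T := by
  unfold disc
  rw [DD_union hTR]
  unfold pr
  rw [Finset.prod_insert hpP]
  push_cast
  ring

/-- existence of the inert primes -/
theorem exists_R {LP LT : Finset ℕ} (hLP : ∀ l ∈ LP, Sp l) {p : ℕ} (hp : Sp p) (hpLP : p ∉ LP)
    {ε : ℤ} (hε : ε = 1 ∨ ε = -1) : ∃ R : Finset ℕ, (∀ r ∈ R, InertT r) ∧ Disjoint LT R ∧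
      (∀ T : Finset ℕ, Disjoint T R → ClG T → ClG (T ∪ R)) ∧ (∀ l ∈ LP, ∀ r ∈ R, lres l r = 0) ∧
      Odd (xrt p + ind R p) ∧ 0 < ε * DD R := by
  classical
  have hF : ∀ l ∈ insert p LP, Sp l := by
    intro l hl
    rcases Finset.mem_insert.1 hl with rfl | hl
    · exact hp
    · exact hLP l hl
  -- the symbols
  have key : ∀ e : ℕ, (e = 3 ∨ e = 5) → ∀ Z : Finset ℕ, ∃ q : ℕ, InertT q ∧ q % 8 = e ∧ q ∉ Z ∧
      (∀ l ∈ LP, lres l q = 0) ∧ Odd (xrt p + lres p q) := by
    intro e he Z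
    obtain ⟨q, ⟨hq, hq8, hJ⟩, hqn⟩ := ((inf_in (insert p LP) hF
      (fun l => if l = p ∧ ¬ Odd (xrt p) then -1 else 1) (fun l _ => by
        by_cases hl : l = p ∧ ¬ Odd (xrt p)
        · right; rw [if_pos hl]
        · left; rw [if_neg hl]) he).sdiff Z.finite_toSet).nonempty
    have hqodd : Odd q := Nat.odd_iff.2 hq.odd
    refine ⟨q, hq, hq8, fun hh => hqn (by exact_mod_cast hh), ?_, ?_⟩
    · intro l hl
      have hlp : l ≠ p := fun hh => hpLP (hh ▸ hl)
      have h4 := hJ l (Finset.mem_insert_of_mem hl)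
      rw [if_neg (fun hh => hlp hh.1)] at h4
      rw [lres_of_jac (hLP l hl) hqodd h4]
      norm_num
    · have h4 := hJ p (Finset.mem_insert_self p LP)
      rw [lres_of_jac hp hqodd h4]
      by_cases hx : Odd (xrt p)
      · have e1 : (if p = p ∧ ¬ Odd (xrt p) then (-1 : ℤ) else 1) = 1 := if_neg fun hh => hh.2 hx
        rw [e1]
        norm_num
        exact hx
      · have e1 : (if p = p ∧ ¬ Odd (xrt p) then (-1 : ℤ) else 1) = -1 := if_pos ⟨rfl, hx⟩
        rw [e1, if_pos rfl]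
        exact (Int.not_odd_iff_even.1 hx).add_one
  have key2 : ∀ e : ℕ, (e = 3 ∨ e = 5) → ∀ Z : Finset ℕ, ∃ q : ℕ, InertT q ∧ q % 8 = e ∧ q ∉ Z ∧
      (∀ l ∈ LP, lres l q = 0) ∧ lres p q = 0 := by
    intro e he Z
    obtain ⟨q, ⟨hq, hq8, hJ⟩, hqn⟩ := ((inf_in (insert p LP) hF
      (fun l => 1) (fun l _ => Or.inl rfl) he).sdiff Z.finite_toSet).nonempty
    have hqodd : Odd q := Nat.odd_iff.2 hq.odd
    refine ⟨q, hq, hq8, fun hh => hqn (by exact_mod_cast hh), ?_, ?_⟩
    · intro l hl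
      have h4 := hJ l (Finset.mem_insert_of_mem hl)
      rw [lres_of_jac (hLP l hl) hqodd h4]
      norm_num
    · have h4 := hJ p (Finset.mem_insert_self p LP)
      rw [lres_of_jac hp hqodd h4]
      norm_num
  rcases hε with rfl | rfl
  · obtain ⟨r, hr, hr8, hrn, hr1, hr2⟩ := key 5 (Or.inr rfl) LT
    obtain ⟨r', hr', hr8', hrn', hr1', hr2'⟩ := key2 5 (Or.inr rfl) (insert r LT)
    rw [Finset.mem_insert, not_or] at hrn'
    have hrr : r ∉ ({r'} : Finset ℕ) := by
      rw [Finset.mem_singleton]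
      exact fun hh => hrn'.1 hh.symm
    have hNr : Nr r := ⟨hr.1, hr8, hr.2.2⟩
    have hNr' : Nr r' := ⟨hr'.1, hr8', hr'.2.2⟩
    refine ⟨{r, r'}, ?_, ?_, ?_, ?_, ?_, ?_⟩
    · intro q hq
      rcases Finset.mem_insert.1 hq with rfl | hq
      · exact hr
      · rw [Finset.mem_singleton] at hq
        rw [hq]; exact hr'
    · rw [Finset.disjoint_right]
      intro q hq
      rcases Finset.mem_insert.1 hq with rfl | hq
      · exact hrn
      · rw [Finset.mem_singleton] at hq
        rw [hq]; exact hrn'.2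
    · intro T hT hc
      rw [Finset.disjoint_right] at hT
      have e : T ∪ {r, r'} = insert r (insert r' T) := by
        ext q
        simp only [Finset.mem_union, Finset.mem_insert, Finset.mem_singleton]
        tauto
      rw [e]
      exact ClG_ext T hc r r' hNr hNr' (fun hh => hrn'.1 hh.symm) (hT (by simp)) (hT (by simp))
    · intro l hl q hq
      rcases Finset.mem_insert.1 hq with rfl | hq
      · exact hr1 l hl
      · rw [Finset.mem_singleton] at hq
        rw [hq]; exact hr1' l hl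
    · unfold ind
      rw [Finset.sum_insert hrr, Finset.sum_singleton, hr2', add_zero]
      exact hr2
    · unfold DD
      rw [Finset.prod_insert hrr, Finset.prod_singleton, qs_nr hNr, qs_nr hNr', one_mul]
      have h1 := hr.1.pos
      have h2 := hr'.1.pos
      positivity
  · obtain ⟨r, hr, hr8, hrn, hr1, hr2⟩ := key 3 (Or.inl rfl) (insert 3 LT)
    rw [Finset.mem_insert, not_or] at hrn
    refine ⟨{r}, ?_, ?_, ?_, ?_, ?_, ?_⟩
    · intro q hq
      rw [Finset.mem_singleton] at hq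
      rw [hq]; exact hr
    · rw [Finset.disjoint_singleton_right]
      exact hrn.2
    · rintro T hT ⟨hc1, hc2⟩
      rw [Finset.disjoint_singleton_right] at hT
      have e : T ∪ {r} = insert r T := by
        ext q
        simp only [Finset.mem_union, Finset.mem_insert, Finset.mem_singleton]
        tauto
      rw [e]
      refine ⟨?_, ?_⟩
      · rw [Finset.mem_insert, not_or]
        exact ⟨fun hh => hrn.1 hh.symm, hc1⟩
      · rw [Finset.filter_insert, if_neg (by omega)]
        exact hc2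
    · intro l hl q hq
      rw [Finset.mem_singleton] at hq
      rw [hq]; exact hr1 l hl
    · unfold ind
      rw [Finset.sum_singleton]
      exact hr2
    · unfold DD
      rw [Finset.prod_singleton]
      have e : qs r = -(r : ℤ) := by
        unfold qs
        rw [if_neg (by omega)]
      rw [e]
      have h1 := hr.1.pos
      have h2 : (0 : ℤ) < r := by exact_mod_cast h1
      linarith

/-- adjunction of a new square root of any sign -/
theorem AdT.ext2 {n : ℕ} {M : ℤ} {d : Fin n → ℤ} (h : AdT ClG M d) (hind : Ind d) {ε : ℤ}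
    (hε : ε = 1 ∨ ε = -1) :
    {p : ℕ | Sp p ∧ ¬ (p : ℤ) ∣ M ∧ (∀ i, ¬ (p : ℤ) ∣ d i) ∧ ∃ D : ℤ, (p : ℤ) ∣ D ∧ 0 < ε * D ∧
      Ind (Fin.snoc d D : Fin (n + 1) → ℤ) ∧
      AdT ClG M (Fin.snoc d D : Fin (n + 1) → ℤ)}.Infinite := by
  classical
  have hM := h.M_ne
  choose P T k h1 h2 h3 using h
  set LP : Finset ℕ := Finset.univ.biUnion P with hLP
  set LT : Finset ℕ := Finset.univ.biUnion T with hLT
  have hPm : ∀ S, ∀ l ∈ P S, l ∈ LP := fun S l hl => Finset.mem_biUnion.2 ⟨S, Finset.mem_univ S, hl⟩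
  have hTm : ∀ S, ∀ l ∈ T S, l ∈ LT := fun S l hl => Finset.mem_biUnion.2 ⟨S, Finset.mem_univ S, hl⟩
  have hLPs : ∀ l ∈ LP, Sp l := by
    intro l hl
    obtain ⟨S, -, hS⟩ := Finset.mem_biUnion.1 hl
    exact (h1 S).sp l hS
  have hLTs : ∀ l ∈ LT, InertT l := by
    intro l hl
    obtain ⟨S, -, hS⟩ := Finset.mem_biUnion.1 hl
    exact (h1 S).inn l hS
  have hd0 : ∀ i, d i ≠ 0 := by
    intro i hi
    refine hind {i} (Finset.singleton_nonempty i) ?_
    rw [Finset.prod_singleton, hi]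
    exact ⟨0, rfl⟩
  set B : ℕ := LP.sup id + ∑ i, (d i).natAbs + M.natAbs with hB
  refine (inf_p (LP ∪ LT) ?_ B).mono ?_
  · intro l hl
    rcases Finset.mem_union.1 hl with hl | hl
    · refine ⟨(hLPs l hl).1, ?_⟩
      rw [Nat.odd_iff]
      have := (hLPs l hl).2.1
      omega
    · exact ⟨(hLTs l hl).1, Nat.odd_iff.2 (hLTs l hl).odd⟩
  rintro p ⟨hp, hpB, hpl⟩
  have hpp : Prime (p : ℤ) := Nat.prime_iff_prime_int.1 hp.1
  have hpLP : p ∉ LP := by
    intro hh
    have h4 : id p ≤ LP.sup id := Finset.le_sup hh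
    simp only [id] at h4
    omega
  have hpM : ¬ (p : ℤ) ∣ M := by
    intro hi
    have h4 : p ∣ M.natAbs := Int.natCast_dvd.1 hi
    have h5 := Nat.le_of_dvd (Int.natAbs_pos.2 hM) h4
    omega
  have hpd : ∀ i, ¬ (p : ℤ) ∣ d i := by
    intro i hi
    have h4 : p ∣ (d i).natAbs := Int.natCast_dvd.1 hi
    have h5 := Nat.le_of_dvd (Int.natAbs_pos.2 (hd0 i)) h4
    have h6 : (d i).natAbs ≤ ∑ j, (d j).natAbs :=
      Finset.single_le_sum (f := fun j => (d j).natAbs) (fun _ _ => Nat.zero_le _)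
        (Finset.mem_univ i)
    omega
  obtain ⟨R, hR, hLTR, hCl, hRl, hRp, hRs⟩ := exists_R (LT := LT) hLPs hp hpLP hε
  have hpR : ¬ (p : ℤ) ∣ DD R := by
    intro hh
    have h4 := mem_of_dvd (fun q hq => (hR q hq).1) hp.1 hh
    exact sp_not_inert hp (hR p h4)
  have hdisj : ∀ S, Disjoint (T S) R := by
    intro S
    rw [Finset.disjoint_left] at hLTR ⊢
    exact fun q hq => hLTR (hTm S q hq)
  refine ⟨hp, hpM, hpd, p * DD R, Dvd.intro _ rfl, ?_, ?_, ?_⟩
  · have h4 : (0 : ℤ) < p := by exact_mod_cast hp.1.pos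
    have h5 : ε * (p * DD R) = p * (ε * DD R) := by ring
    rw [h5]
    exact mul_pos h4 hRs
  · intro S hS
    rw [prod_snoc]
    by_cases hlast : Fin.last n ∈ S
    · rw [if_pos hlast]
      set S' := Finset.univ.filter (fun i : Fin n => i.castSucc ∈ S) with hS'
      have e : (∏ i ∈ S', d i) * (p * DD R) = p * (DD R * ∏ i ∈ S', d i) := by ring
      rw [e]
      refine not_sq_of_prime hp.1 fun hh => ?_
      rcases hpp.dvd_or_dvd hh with h4 | h4
      · exact hpR h4
      · rw [hpp.dvd_finsetProd_iff] at h4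
        obtain ⟨i, -, hi⟩ := h4
        exact hpd i hi
    · rw [if_neg hlast, mul_one]
      have hne : (Finset.univ.filter (fun i : Fin n => i.castSucc ∈ S)).Nonempty := by
        obtain ⟨i, hi⟩ := hS
        rcases Fin.eq_castSucc_or_eq_last i with ⟨j, rfl⟩ | rfl
        · exact ⟨j, by simpa using hi⟩
        · exact absurd hi hlast
      exact hind _ hne
  -- the new data
  have key : ∀ S, Ad ClG (insert p (P S)) (T S ∪ R) := by
    intro S
    refine (h1 S).extR hp hR (fun hh => hpLP (hPm S p hh)) (hdisj S) (hCl _ (hdisj S) (h1 S).cl)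
      ?_ ?_ ?_ hRp
    · exact fun l hl => hpl l (Finset.mem_union_left _ (hPm S l hl))
    · exact fun l hl => hpl l (Finset.mem_union_right _ (hTm S l hl))
    · exact fun l hl => hRl l (hPm S l hl)
  intro S
  rw [prod_snoc]
  set S' := Finset.univ.filter (fun i : Fin n => i.castSucc ∈ S) with hS'
  by_cases hlast : Fin.last n ∈ S
  · rw [if_pos hlast]
    refine ⟨insert p (P S'), T S' ∪ R, k S', key S', h2 S', ?_⟩
    rw [disc_extR (fun hh => hpLP (hPm S' p hh)) (hdisj S')]
    have e := h3 S'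
    linear_combination (p * DD R : ℤ) * e
  · rw [if_neg hlast, mul_one]
    exact ⟨P S', T S', k S', h1 S', h2 S', h3 S'⟩

end Pool.Agent.Y687.MQ
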