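import Pool.Agent.Y17.G.Fin
import Pool.Agent.Z705.Pos
import Pool.Agent.Y220.ZD.DIAG
import Pool.Agent.Y614.Z705.GENb
import Pool.Agent.Y394.Z705.Bil2a
import Pool.Agent.Y394.Z705.Bil2b
import Pool.Agent.Y394.Z705.Can
import Pool.Agent.Y576.Z7.C2
import Pool.Agent.Y761.Z705.C1A
import Pool.Agent.Y100.ZC.SgBil
import Pool.Agent.Z141.ZE.Ind5
import Pool.Agent.Z363.Z705.C1B
import Pool.Agent.Y356.ZG.Gen705
import Pool.Agent.Z701.Fin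

/-!
The positive half: collection of the parts.
-/

set_option autoImplicit false

namespace Pool.Agent.Y687.MQ

theorem p_SG : Pool.Agent.Z705.S_SG := Pool.Agent.Y100.ZC.t_SG Pool.Agent.Z700.t_JAC

theorem p_BIL : Pool.Agent.Z705.S_BIL := Pool.Agent.Z705.bil_of
  (Pool.Agent.Y100.ZC.t_BIL1 p_SG Pool.Agent.Z700.t_SG1) Pool.Agent.Y394.Z705.t_BIL2A
  (Pool.Agent.Y394.Z705.t_CAN Pool.Agent.Z700.f_PC)
  (Pool.Agent.Y394.Z705.t_BIL2B Pool.Agent.Z700.f_PC)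

theorem p_GEN : Pool.Agent.Z705.S_GEN := Pool.Agent.Y356.ZG.t_GEN
  (Pool.Agent.Y614.Z705.t_GENb Pool.Agent.Y17.G.f_ABS1 Pool.Agent.Y17.G.f_ABS2
    Pool.Agent.Y17.G.f_ABS3)

theorem p_IND : Pool.Agent.Z705.S_IND := Pool.Agent.Z141.ZE.t_IND Pool.Agent.Z700.t_SG1 p_BIL
  p_GEN Pool.Agent.Z701.f_FIX0 Pool.Agent.Y17.G.f_F2 Pool.Agent.Y17.G.f_F4
  Pool.Agent.Z179.t_TREE

theorem p_DIAG : Pool.Agent.Z705.S_DIAG := Pool.Agent.Y220.ZD.t_DIAG p_BIL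
  (Pool.Agent.Z705.c1_of Pool.Agent.Y761.Z705.t_C1A Pool.Agent.Z363.Z705.t_C1B)
  Pool.Agent.Y576.Z7.t_C2

end Pool.Agent.Y687.MQ
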