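import Pool.Agent.Y17.G.Fin
import Pool.Agent.Y687.MQ.Pos
import Pool.Agent.Y687.MQ.Ext2

/-!
The general class: all parts.
-/

set_option autoImplicit false

namespace Pool.Agent.Y687.MQ

open Pool.Agent.Y687

/-- nonvanishing and finiteness for the general class -/
theorem WB_all {P T : Finset ℕ} (h : Ad ClG P T) : WB (disc P T) :=
  WB_G (fun _ _ hP hS ht hodd => Pool.Agent.Y17.G.weak_gen Pool.Agent.Y17.N.f_BIL
      Pool.Agent.Y17.N.f_T8 Pool.Agent.Y17.G.f_IND3G Pool.Agent.Y17.G.f_INDQG hP hS ht hodd)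
    (fun _ _ hP hS h3 ht hne hodd => Pool.Agent.Z705.weak_pos Pool.Agent.Z700.f_SYM
      p_DIAG p_IND hP hS h3 ht hne hodd) h

/-- in terms of the discriminant -/
theorem WB_D {D : ℤ} (h : AdmD D) (hdet : (matD D).det ≠ 0) : WB D := by
  obtain ⟨P, T, h1, rfl⟩ := good_iff.1 ⟨h, hdet⟩
  exact WB_all h1

end Pool.Agent.Y687.MQ
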