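import Pool.Agent.Y687.MQ.Exi

/-!
The class in terms of the discriminant `D`.
-/

set_option autoImplicit false
set_option linter.style.haveILetI false

open Finset

namespace Pool.Agent.Y687.MQ

open Pool.Agent.Y687
open Pool.Agent.Z700 (pr Yd lres xrt xres)
open Pool.Agent.Z701 (Sp Nr ind)

/-- the split primes of `D` -/
def SP (D : ℤ) : Finset ℕ := D.natAbs.primeFactors.filter fun p => p % 8 = 1

/-- the inert primes of `D` -/
def IP (D : ℤ) : Finset ℕ := D.natAbs.primeFactors.filter fun p => ¬ p % 8 = 1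

open Classical in
/-- the matrix over `𝔽₂` -/
noncomputable def matD (D : ℤ) : Matrix (SP D) (SP D) (ZMod 2) := Matrix.of fun i j =>
  if i = j then
    (((D.natAbs.primeFactors.filter fun r : ℕ => r ≠ (i : ℕ) ∧
      ¬ IsSquare (r : ZMod (i : ℕ))).card : ZMod 2) + if 8 ∣ NN 1 (i : ℕ) then 0 else 1)
  else if IsSquare (((j : ℕ)) : ZMod (i : ℕ)) then 0 else 1

/-- the class of discriminants -/
def AdmD (D : ℤ) : Prop := Squarefree D ∧ D % 4 = 1 ∧ (D % 7 = 1 ∨ D % 7 = 2 ∨ D % 7 = 4) ∧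
  ∀ p : ℕ, p.Prime → (p : ℤ) ∣ D → p ≠ 3 ∧ (Sp p ∨ InertT p)

theorem union_SP (D : ℤ) : SP D ∪ IP D = D.natAbs.primeFactors := by
  unfold SP IP
  exact Finset.filter_union_filter_not_eq _ _

theorem matD_eq (D : ℤ) : matD D = matT (SP D) (IP D) := by
  unfold matD matT
  rw [union_SP]

instance : Fact (Nat.Prime 7) := ⟨by norm_num⟩

theorem leg_iff (z : ℤ) : legendreSym 7 z = 1 ↔ (z % 7 = 1 ∨ z % 7 = 2 ∨ z % 7 = 4) := by
  rw [legendreSym.mod]
  have h1 : 0 ≤ z % 7 := Int.emod_nonneg _ (by norm_num)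
  have h2 : z % 7 < 7 := Int.emod_lt_of_pos _ (by norm_num)
  push_cast
  generalize z % 7 = w at h1 h2
  interval_cases w <;> decide

theorem leg_P {P : Finset ℕ} (hP : ∀ p ∈ P, Sp p) : legendreSym 7 (pr P : ℤ) = 1 := by
  classical
  induction P using Finset.induction_on with
  | empty => unfold pr; simp
  | insert a P ha ih =>
    have h1 := ih fun q hq => hP q (Finset.mem_insert_of_mem hq)
    have h2 := hP a (Finset.mem_insert_self a P)
    rw [Pool.Agent.Y17.G.pr_insert ha]
    push_cast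
    rw [legendreSym.mul, h1, mul_one, leg_iff]
    have := h2.2.2
    omega

theorem leg_qs {q : ℕ} (hq : InertT q) : legendreSym 7 (qs q) = if q % 8 = 5 then -1 else 1 := by
  obtain ⟨-, h8, h7⟩ := hq
  have hn : ∀ z : ℤ, (z % 7 = 3 ∨ z % 7 = 5 ∨ z % 7 = 6) → legendreSym 7 z = -1 := by
    intro z hz
    rw [legendreSym.mod]
    push_cast
    rcases hz with h | h | h <;> rw [h] <;> decide
  rcases h8 with h8 | h8
  · rw [if_neg (by omega)]
    have e : qs q = -(q : ℤ) := by
      unfold qs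
      rw [if_neg (by omega)]
    rw [e, leg_iff]
    omega
  · rw [if_pos h8]
    have e : qs q = (q : ℤ) := by
      unfold qs
      rw [if_pos (by omega)]
    rw [e]
    refine hn _ ?_
    omega

theorem leg_DD {T : Finset ℕ} (hT : ∀ q ∈ T, InertT q) :
    legendreSym 7 (DD T) = (-1) ^ (T.filter fun q => q % 8 = 5).card := by
  classical
  induction T using Finset.induction_on with
  | empty => unfold DD; simp
  | insert a T ha ih =>
    have h1 := ih fun q hq => hT q (Finset.mem_insert_of_mem hq)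
    rw [DD_insert ha, legendreSym.mul, h1, leg_qs (hT a (Finset.mem_insert_self a T)),
      Finset.filter_insert]
    split_ifs with h
    · rw [Finset.card_insert_of_notMem (fun h => ha (Finset.mem_filter.1 h).1), pow_succ]
      ring
    · rw [one_mul]

theorem leg_disc {P T : Finset ℕ} (hP : ∀ p ∈ P, Sp p) (hT : ∀ q ∈ T, InertT q) :
    legendreSym 7 (disc P T) = (-1) ^ (T.filter fun q => q % 8 = 5).card := by
  unfold disc
  rw [legendreSym.mul, leg_P hP, leg_DD hT, one_mul]

theorem pr_mod4 {P : Finset ℕ} (hP : ∀ p ∈ P, Sp p) : (pr P : ℤ) % 4 = 1 := by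
  have h2 : pr P % 4 = 1 % 4 := Pool.Agent.Z700.pr_mod fun p hp => by
    have := (hP p hp).2.1
    omega
  omega

theorem disc_mod4 {P T : Finset ℕ} (hP : ∀ p ∈ P, Sp p) (hT : ∀ q ∈ T, InertT q) :
    disc P T % 4 = 1 := by
  unfold disc
  rw [Int.mul_emod, pr_mod4 hP, DD_mod fun q hq => (hT q hq).odd]
  norm_num

theorem disc_natAbs {P T : Finset ℕ} (hP : ∀ p ∈ P, Sp p) (hT : ∀ q ∈ T, InertT q) :
    (disc P T).natAbs = ∏ q ∈ P ∪ T, q := by
  have hdisj : Disjoint P T := by
    rw [Finset.disjoint_left]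
    intro p hp hq
    exact sp_not_inert (hP p hp) (hT p hq)
  unfold disc
  rw [Int.natAbs_mul, Int.natAbs_natCast, DD_natAbs, Finset.prod_union hdisj]
  rfl

/-- from the sets to the discriminant -/
theorem admD_of {P T : Finset ℕ} (h : Ad ClG P T) :
    AdmD (disc P T) ∧ SP (disc P T) = P ∧ IP (disc P T) = T := by
  classical
  have hpr : ∀ q ∈ P ∪ T, q.Prime := by
    intro q hq
    rcases Finset.mem_union.1 hq with hq | hq
    · exact (h.sp q hq).1
    · exact (h.inn q hq).1
  have hpf : (disc P T).natAbs.primeFactors = P ∪ T := by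
    rw [disc_natAbs h.sp h.inn]
    exact Nat.primeFactors_prod hpr
  refine ⟨⟨h.sqf, disc_mod4 h.sp h.inn, ?_, ?_⟩, ?_, ?_⟩
  · rw [← leg_iff, leg_disc h.sp h.inn, (Nat.even_iff.2 h.cl.2).neg_one_pow]
  · intro p hp hd
    have h1 : p ∈ (disc P T).natAbs.primeFactors :=
      Nat.mem_primeFactors.2 ⟨hp, Int.natCast_dvd.1 hd, Int.natAbs_ne_zero.2 h.sqf.ne_zero⟩
    rw [hpf] at h1
    rcases Finset.mem_union.1 h1 with h2 | h2
    · refine ⟨?_, Or.inl (h.sp p h2)⟩
      rintro rfl
      exact absurd (h.sp 3 h2).2.1 (by norm_num)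
    · refine ⟨?_, Or.inr (h.inn p h2)⟩
      rintro rfl
      exact h.cl.1 h2
  · unfold SP
    rw [hpf, Finset.filter_union, Finset.filter_true_of_mem fun p hp => (h.sp p hp).2.1,
      Finset.filter_false_of_mem fun q hq => by have := (h.inn q hq).2.1; omega,
      Finset.union_empty]
  · unfold IP
    rw [hpf, Finset.filter_union, Finset.filter_false_of_mem fun p hp => by
        rw [not_not]; exact (h.sp p hp).2.1,
      Finset.filter_true_of_mem fun q hq => by have := (h.inn q hq).2.1; omega,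
      Finset.empty_union]

/-- from the discriminant to the sets -/
theorem of_admD {D : ℤ} (h : AdmD D) : (∀ p ∈ SP D, Sp p) ∧ (∀ q ∈ IP D, InertT q) ∧
    ClG (IP D) ∧ disc (SP D) (IP D) = D := by
  classical
  obtain ⟨h1, h4, h7, hp⟩ := h
  have hD0 : D ≠ 0 := h1.ne_zero
  have hm : ∀ p ∈ D.natAbs.primeFactors, p ≠ 3 ∧ (Sp p ∨ InertT p) := by
    intro p hpm
    exact hp p (Nat.prime_of_mem_primeFactors hpm)
      (Int.natCast_dvd.2 (Nat.dvd_of_mem_primeFactors hpm))
  have hSP : ∀ p ∈ SP D, Sp p := by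
    intro p hpm
    obtain ⟨k1, k2⟩ := Finset.mem_filter.1 hpm
    rcases (hm p k1).2 with k3 | k3
    · exact k3
    · have := k3.2.1
      omega
  have hIP : ∀ q ∈ IP D, InertT q := by
    intro q hqm
    obtain ⟨k1, k2⟩ := Finset.mem_filter.1 hqm
    rcases (hm q k1).2 with k3 | k3
    · exact absurd k3.2.1 k2
    · exact k3
  have habs : (disc (SP D) (IP D)).natAbs = D.natAbs := by
    rw [disc_natAbs hSP hIP, union_SP]
    exact Nat.prod_primeFactors_of_squarefree (Int.squarefree_natAbs.2 h1)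
  have hm4 := disc_mod4 hSP hIP
  have he : disc (SP D) (IP D) = D := by
    rcases Int.natAbs_eq_natAbs_iff.1 habs with e | e
    · exact e
    · omega
  refine ⟨hSP, hIP, ⟨?_, ?_⟩, he⟩
  · intro h3
    exact (hm 3 (Finset.mem_filter.1 h3).1).1 rfl
  · have e := leg_disc hSP hIP
    rw [he, (leg_iff D).2 h7] at e
    rcases Nat.mod_two_eq_zero_or_one ((IP D).filter fun q => q % 8 = 5).card with h5 | h5
    · exact h5
    · rw [(Nat.odd_iff.2 h5).neg_one_pow] at e
      norm_num at e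

/-- the two descriptions -/
theorem good_iff {D : ℤ} :
    (AdmD D ∧ (matD D).det ≠ 0) ↔ ∃ P T : Finset ℕ, Ad ClG P T ∧ disc P T = D := by
  constructor
  · rintro ⟨h, hdet⟩
    obtain ⟨h1, h2, h3, h4⟩ := of_admD h
    rw [matD_eq] at hdet
    exact ⟨SP D, IP D, ⟨h1, h2, h3, (matT_iff h1 h2).1 hdet⟩, h4⟩
  · rintro ⟨P, T, h, rfl⟩
    obtain ⟨h1, h2, h3⟩ := admD_of h
    refine ⟨h1, ?_⟩
    rw [matD_eq, h2, h3]
    exact (matT_iff h.sp h.inn).2 h.odd

end Pool.Agent.Y687.MQ
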