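import Pool.Agent.Y687.K4.MainT
import Pool.Agent.Y687.K2.Par

/-!
The curve `X_0(14)` itself: the `L`-function, its value at `1`, the rational points.
-/

set_option autoImplicit false
set_option linter.style.haveILetI false

open Complex Filter Topology Set UpperHalfPlane MatrixGroups CongruenceSubgroup ZMod

namespace Pool.Agent.Y687.MQ

open Pool.Agent.Y687
open Pool.Agent.W97.MT

/-- the `L`-function of the curve -/
theorem exists_f1 :
    ∃ (f : ℂ → ℂ) (g1 : ℂ), Differentiable ℂ f ∧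
      (∀ s : ℂ, (3 : ℝ) / 2 < s.re →
        HasProd (fun p : {p : ℕ // p.Prime ∧
            ¬ ((p : ℤ) ∣ 2 * (4 * (5805 * (1 : ℤ) ^ 2) ^ 3 + 27 * (-285714 * (1 : ℤ) ^ 3) ^ 2))} =>
          fac (5805 * (1 : ℤ) ^ 2) (-285714 * (1 : ℤ) ^ 3) s p) (f s)) ∧
      (g1 ≠ 0 → f 1 ≠ 0) ∧
      ∃ τ : ℂ, τ * g1 = II 0 := by
  classical
  haveI : NeZero 1 := ⟨one_ne_zero⟩
  have hcop : Nat.Coprime 1 14 := by norm_num
  obtain ⟨g, hg1, hg2, hg3⟩ := exists_L (q := 1) hcop (1 : DirichletCharacter ℂ 1)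
    DirichletCharacter.isPrimitive_one_level_one
  have hchi : ∀ m : ℕ, (1 : DirichletCharacter ℂ 1) (m : ZMod 1) = (((1 : ℤ)) : ℂ) := by
    intro m
    have h : ((m : ℕ) : ZMod 1) = 1 := Subsingleton.elim _ _
    rw [h, map_one]
    norm_num
  have hc : (1 : ℤ) = 1 ∨ (1 : ℤ) = -1 := Or.inl rfl
  have hc0 : (1 : ℤ) = 0 ∨ (1 : ℤ) = 1 ∨ (1 : ℤ) = -1 := Or.inr hc
  refine ⟨fun s => g s * (bf 1 2 s * (bf 1 3 s * bf 1 7 s)), g 1,
    hg1.mul ((bf_diff 1 (by norm_num)).mul ((bf_diff 1 (by norm_num)).mul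
      (bf_diff 1 (by norm_num)))), ?_, ?_, ?_⟩
  · intro s hs
    have hs' : 3 / 2 < s.re := hs
    have e1 := hg2 s hs'
    -- the finite product
    set p2 : Nat.Primes := ⟨2, Nat.prime_two⟩ with hp2
    set p3 : Nat.Primes := ⟨3, Nat.prime_three⟩ with hp3
    set p7 : Nat.Primes := ⟨7, by norm_num⟩ with hp7
    have n23 : p2 ≠ p3 := by rw [hp2, hp3]; intro h; have := congrArg Subtype.val h; simp at this
    have n27 : p2 ≠ p7 := by rw [hp2, hp7]; intro h; have := congrArg Subtype.val h; simp at this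
    have n37 : p3 ≠ p7 := by rw [hp3, hp7]; intro h; have := congrArg Subtype.val h; simp at this
    set k : Nat.Primes → ℂ := fun p => if p ∈ ({p2, p3, p7} : Finset Nat.Primes) then
      bf 1 p s else 1 with hk
    have e2 : HasProd k (∏ p ∈ ({p2, p3, p7} : Finset Nat.Primes), k p) :=
      hasProd_prod_of_ne_finset_one (fun p hp => if_neg hp)
    have e3 : ∏ p ∈ ({p2, p3, p7} : Finset Nat.Primes), k p =
        bf 1 2 s * (bf 1 3 s * bf 1 7 s) := by
      rw [Finset.prod_insert (by simp [n23, n27]), Finset.prod_insert (by simp [n37]),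
        Finset.prod_singleton]
      simp only [hk]
      rw [if_pos (by simp), if_pos (by simp), if_pos (by simp)]
    rw [e3] at e2
    have e4 := e1.mul e2
    refine hasProd_transfer _ _ _ ?_
    refine (congrArg (fun g => HasProd g _) (funext fun p => ?_)).mp e4
    have hpp : (p : ℕ).Prime := p.2
    have hF : (1 - (ap E14 p : ℂ) * (1 : DirichletCharacter ℂ 1) ((p : ℕ) : ZMod 1) *
          ((p : ℕ) : ℂ) ^ (-s) +
          (if (p : ℕ) ∣ 14 then 0 else ((p : ℕ) : ℂ)) *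
            ((1 : DirichletCharacter ℂ 1) ((p : ℕ) : ZMod 1)) ^ 2 *
            ((p : ℕ) : ℂ) ^ (-2 * s)) = bf 1 p s := by
      unfold bf
      rw [hchi]
    rw [hF]
    have hs1 : 1 < s.re := by linarith
    by_cases hin : p ∈ ({p2, p3, p7} : Finset Nat.Primes)
    · have hk1 : k p = bf 1 p s := if_pos hin
      rw [hk1]
      simp only [Finset.mem_insert, Finset.mem_singleton] at hin
      have hbad : ((p : ℕ) : ℤ) ∣ 2 * (4 * (5805 * (1 : ℤ) ^ 2) ^ 3 +
          27 * (-285714 * (1 : ℤ) ^ 3) ^ 2) := by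
        rw [good_iffD hpp]
        rcases hin with rfl | rfl | rfl
        · exact Or.inl rfl
        · exact Or.inr (Or.inl rfl)
        · exact Or.inr (Or.inr (Or.inl rfl))
      rw [if_neg (not_not.2 hbad)]
      refine inv_mul_cancel₀ ?_
      rcases hin with rfl | rfl | rfl
      · exact bf2_ne' hc hs1
      · exact bf3_ne0' hc0 hs1
      · exact bf7_ne' hc hs1
    · have hk1 : k p = 1 := if_neg hin
      rw [hk1, mul_one]
      simp only [Finset.mem_insert, Finset.mem_singleton, not_or] at hin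
      have q2 : (p : ℕ) ≠ 2 := fun h => hin.1 (Subtype.ext h)
      have q3 : (p : ℕ) ≠ 3 := fun h => hin.2.1 (Subtype.ext h)
      have q7 : (p : ℕ) ≠ 7 := fun h => hin.2.2 (Subtype.ext h)
      have hgood : ¬ ((p : ℕ) : ℤ) ∣ 2 * (4 * (5805 * (1 : ℤ) ^ 2) ^ 3 +
            27 * (-285714 * (1 : ℤ) ^ 3) ^ 2) := by
        rw [good_iffD hpp]
        push Not
        exact ⟨q2, q3, q7, fun h => hpp.one_lt.ne' (Nat.dvd_one.1 h)⟩
      rw [if_pos hgood]
      have h14' : ¬ (p : ℕ) ∣ 14 := by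
        intro h
        have h1 : (p : ℕ) ∣ 2 * 7 := by simpa using h
        rcases (Nat.Prime.dvd_mul hpp).1 h1 with h2 | h2
        · exact q2 ((Nat.prime_dvd_prime_iff_eq hpp Nat.prime_two).1 h2)
        · exact q7 ((Nat.prime_dvd_prime_iff_eq hpp (by norm_num)).1 h2)
      unfold bf fac
      congr 1
      have h1' : ((1 : ℤ) : ℂ) ^ 2 = 1 := by norm_num
      rw [if_neg h14', h1', mul_one, p_cpow hpp.ne_zero]
      have h5 := cnt_E14 p hpp q2 q3
      have h6 : (((p : ℕ) : ℤ) - (Nat.card {q : ZMod p × ZMod p //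
                q.2 ^ 2 = q.1 ^ 3 + ((5805 * (1 : ℤ) ^ 2 : ℤ) : ZMod p) * q.1 +
                  ((-285714 * (1 : ℤ) ^ 3 : ℤ) : ZMod p)} : ℤ)) = ap E14 p := by
        rw [← h5]
        unfold cnt
        norm_num
      rw [h6]
      push_cast
      ring
  · intro hg
    exact mul_ne_zero hg (mul_ne_zero (bf2_ne hc) (mul_ne_zero (bf3_ne0 hc0) (bf7_ne hc)))
  · refine ⟨gaussSum (1 : DirichletCharacter ℂ 1)⁻¹ (stdAddChar (N := 1)), ?_⟩
    rw [hg3]
    have hU : (Finset.univ : Finset (ZMod 1)ˣ) = {1} := by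
      ext u
      simp only [Finset.mem_univ, Finset.mem_singleton, true_iff]
      exact Subsingleton.elim _ _
    rw [hU, Finset.sum_singleton]
    have e1 : (1 : DirichletCharacter ℂ 1)⁻¹ (((1 : (ZMod 1)ˣ)) : ZMod 1) = 1 := by
      rw [inv_one]
      simp
    have e2 : ((((1 : (ZMod 1)ˣ) : ZMod 1).val : ℚ) / (1 : ℕ)) = 0 := by
      have : ((1 : (ZMod 1)ˣ) : ZMod 1).val = 0 := by
        have h := ZMod.val_lt ((1 : (ZMod 1)ˣ) : ZMod 1)
        omega
      rw [this]
      simp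
    rw [e1, e2, one_mul]

/-- the conjecture for the curve -/
theorem WB_one : WB 1 := by
  have H : HypI 1 := ⟨by norm_num, squarefree_one, fun q hq h => by
    exfalso
    have h1 : q ∣ 1 := by exact_mod_cast h
    exact hq.one_lt.ne' (Nat.dvd_one.1 h1)⟩
  refine ⟨?_, H.finite_set⟩
  obtain ⟨f, g1, hf1, hf2, hf3, τ, hτ⟩ := exists_f1
  refine ⟨f, hf1, hf2, hf3 ?_⟩
  rintro rfl
  obtain ⟨s, Op, hOp, hs, hv⟩ := exists_symb2
  have h0 := hv 0
  rw [mul_zero] at hτ
  rw [← hτ] at h0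
  have h1 : (s 0 : ℝ) * Op = 0 := by
    rw [← h0]; simp
  rcases mul_eq_zero.1 h1 with h2 | h2
  · have h3 : s 0 = 0 := by exact_mod_cast h2
    have := hs.odd0
    rw [h3] at this
    simp at this
  · exact hOp.ne' h2

end Pool.Agent.Y687.MQ
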