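import Pool.Agent.Y73.QMQ1
import Pool.Agent.Y914.QMQ4
import Pool.Agent.W410.RS.MQ2
import Pool.Agent.W612.RS.Mq1
import Pool.Agent.Y687.MQ.One
import Pool.Agent.Y687.K2.RankForm

/-!
Elliptic curves over multiquadratic fields: rank and order zero from the twists.
-/

set_option autoImplicit false
set_option linter.style.haveILetI false

namespace Pool.Agent.Y687.MQ

open Complex NumberField IsDedekindDomain
open Pool.Agent.Y19.QT (Indep EK FinGenK rkK qv av IsLFunK IsLFun EQ)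

theorem mq2 : Pool.Agent.W307.RS.MQ2 := Pool.Agent.W410.RS.mq2_of Pool.Agent.W612.RS.mq1

open Classical in
/-- the Mordell-Weil theorem -/
theorem fg_gen (K : Type) [Field K] [NumberField K] {a b : ℤ} (hab : 4 * a ^ 3 + 27 * b ^ 2 ≠ 0) :
    FinGenK K a b := by
  unfold FinGenK
  rw [Module.Finite.iff_addGroup_fg]
  exact Pool.Agent.TH942.sfg (F := K) (a := a) (b := b) (by exact_mod_cast hab)

theorem fg_EQ {a b : ℤ} (hab : 4 * a ^ 3 + 27 * b ^ 2 ≠ 0) : Module.Finite ℤ (EQ a b) := by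
  rw [Module.Finite.iff_addGroup_fg]
  exact Pool.Agent.TH942.sfg (F := ℚ) (a := a) (b := b) (by exact_mod_cast hab)

theorem disc_ne {a b : ℤ} (hab : 4 * a ^ 3 + 27 * b ^ 2 ≠ 0) {d : ℤ} (hd : d ≠ 0) :
    4 * (a * d ^ 2) ^ 3 + 27 * (b * d ^ 3) ^ 2 ≠ 0 := by
  have e : 4 * (a * d ^ 2) ^ 3 + 27 * (b * d ^ 3) ^ 2 = d ^ 6 * (4 * a ^ 3 + 27 * b ^ 2) := by ring
  rw [e]
  exact mul_ne_zero (pow_ne_zero _ hd) hab

open Classical in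
theorem rank_gen (K : Type) [Field K] [CharZero K] [Algebra ℚ K] {n : ℕ} (d : Fin n → ℤ)
    (x : Fin n → K) (hx : ∀ i, x i ^ 2 = (d i : K))
    (hK : IntermediateField.adjoin ℚ (Set.range x) = ⊤) (hd : ∀ i, d i ≠ 0) {a b : ℤ}
    (hab : 4 * a ^ 3 + 27 * b ^ 2 ≠ 0) (hf : FinGenK K a b) :
    rkK K a b ≤ ∑ T : Finset (Fin n),
      Module.finrank ℤ (EQ (a * (∏ i ∈ T, d i) ^ 2) (b * (∏ i ∈ T, d i) ^ 3)) := by
  have h := mq2 K n x d hx hd hK a b hab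
  unfold FinGenK at hf
  unfold rkK
  have h1 : Module.rank ℤ (EK K a b) = (Module.finrank ℤ (EK K a b) : Cardinal) :=
    (Module.finrank_eq_rank ℤ _).symm
  have h2 : ∀ T : Finset (Fin n), Module.rank ℤ (Pool.Agent.W307.RT.Sh ((∏ i ∈ T, d i) ^ 2 * a)
      ((∏ i ∈ T, d i) ^ 3 * b)).toAffine.Point =
      (Module.finrank ℤ (EQ (a * (∏ i ∈ T, d i) ^ 2) (b * (∏ i ∈ T, d i) ^ 3)) : Cardinal) := by
    intro T
    have h3 : ∏ i ∈ T, d i ≠ 0 := Finset.prod_ne_zero_iff.2 fun i _ => hd i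
    have hg := fg_EQ (disc_ne hab h3)
    rw [Module.finrank_eq_rank ℤ (EQ (a * (∏ i ∈ T, d i) ^ 2) (b * (∏ i ∈ T, d i) ^ 3))]
    rw [mul_comm _ a, mul_comm _ b]
    unfold EQ Pool.Agent.W307.RT.Sh
    congr!
  have h4 : (Module.finrank ℤ (EK K a b) : Cardinal) ≤
      ((∑ T : Finset (Fin n), Module.finrank ℤ
        (EQ (a * (∏ i ∈ T, d i) ^ 2) (b * (∏ i ∈ T, d i) ^ 3)) : ℕ) : Cardinal) := by
    rw [← h1, Nat.cast_sum]
    refine le_trans h (le_of_eq (Finset.sum_congr rfl fun T _ => h2 T))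
  exact_mod_cast h4

/-- the conjecture with order and rank zero -/
def ZB (a b : ℤ) : Prop :=
  (∃ F : ℂ → ℂ, IsLFun a b F ∧ analyticOrderAt F 1 = 0) ∧
    {q : ℚ × ℚ | q.2 ^ 2 = q.1 ^ 3 + (a : ℚ) * q.1 + (b : ℚ)}.Finite

theorem ZB_of_WB {D : ℤ} (h : WB D) : ZB (5805 * D ^ 2) (-285714 * D ^ 3) := by
  obtain ⟨⟨f, hf, hfp, hf1⟩, hfin⟩ := h
  obtain ⟨F, hF, hFp, hF1, -⟩ := rankBSD hf hfp hf1 hfin
  exact ⟨⟨F, ⟨hF, hFp⟩, hF1⟩, hfin⟩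

/-- the points after scaling -/
theorem finite_scale {a b s k : ℤ} (hk : k ≠ 0)
    (h : {q : ℚ × ℚ | q.2 ^ 2 = q.1 ^ 3 + ((a * s ^ 2 : ℤ) : ℚ) * q.1 +
      ((b * s ^ 3 : ℤ) : ℚ)}.Finite) :
    {q : ℚ × ℚ | q.2 ^ 2 = q.1 ^ 3 + ((a * (s * k ^ 2) ^ 2 : ℤ) : ℚ) * q.1 +
      ((b * (s * k ^ 2) ^ 3 : ℤ) : ℚ)}.Finite := by
  have hk' : (k : ℚ) ≠ 0 := by exact_mod_cast hk
  refine (h.image fun q : ℚ × ℚ => ((k : ℚ) ^ 2 * q.1, (k : ℚ) ^ 3 * q.2)).subset ?_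
  rintro ⟨x, y⟩ hxy
  have hxy' : y ^ 2 = x ^ 3 + ((a * (s * k ^ 2) ^ 2 : ℤ) : ℚ) * x +
      ((b * (s * k ^ 2) ^ 3 : ℤ) : ℚ) := hxy
  refine ⟨(x / (k : ℚ) ^ 2, y / (k : ℚ) ^ 3), ?_, ?_⟩
  · show (y / (k : ℚ) ^ 3) ^ 2 = (x / (k : ℚ) ^ 2) ^ 3 + ((a * s ^ 2 : ℤ) : ℚ) * (x / (k : ℚ) ^ 2) +
      ((b * s ^ 3 : ℤ) : ℚ)
    push_cast at hxy' ⊢
    field_simp
    rw [hxy']
    ring
  · show ((k : ℚ) ^ 2 * (x / (k : ℚ) ^ 2), (k : ℚ) ^ 3 * (y / (k : ℚ) ^ 3)) = (x, y)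
    rw [mul_div_cancel₀ x (pow_ne_zero 2 hk'), mul_div_cancel₀ y (pow_ne_zero 3 hk')]

theorem ZB_scale {a b s k : ℤ} (hab : 4 * a ^ 3 + 27 * b ^ 2 ≠ 0) (hs : s ≠ 0) (hk : k ≠ 0)
    (h : ZB (a * s ^ 2) (b * s ^ 3)) : ZB (a * (s * k ^ 2) ^ 2) (b * (s * k ^ 2) ^ 3) := by
  obtain ⟨⟨F, hF, hF1⟩, hfin⟩ := h
  obtain ⟨G, hG, hG1⟩ := Pool.Agent.Y914.QMQ4.MQ4 a b hab s k hs hk F hF
  refine ⟨⟨G, hG, ?_⟩, finite_scale hk hfin⟩
  rw [hG1 1 (by norm_num), hF1]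

theorem finrank_EQ_zero {a b : ℤ} (h : ZB a b) : Module.finrank ℤ (EQ a b) = 0 :=
  finrank_zero_of_finite (finite_pt_of_set h.2)

/-- rank and order zero over a multiquadratic field -/
theorem mq_zero {n : ℕ} {d : Fin n → ℤ} (hd : Indep d) {a b : ℤ}
    (hab : 4 * a ^ 3 + 27 * b ^ 2 ≠ 0)
    (h : ∀ T : Finset (Fin n), ZB (a * (∏ i ∈ T, d i) ^ 2) (b * (∏ i ∈ T, d i) ^ 3))
    (K : Type) [Field K] [NumberField K] (x : Fin n → K) (hx : ∀ i, x i ^ 2 = (d i : K))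
    (hK : IntermediateField.adjoin ℚ (Set.range x) = ⊤) :
    (∃ F : ℂ → ℂ, IsLFunK K a b (∏ i, d i) F ∧ F 1 ≠ 0) ∧ Finite (EK K a b) := by
  classical
  choose G hG using fun T => (h T).1
  obtain ⟨F, hF, hF1⟩ := Pool.Agent.Y73.QMQ1.MQ1 a b hab n d hd G (fun T => (hG T).1) K x hx hK
  refine ⟨⟨F, hF, ?_⟩, ?_⟩
  · have h1 := hF1 1 (by norm_num)
    rw [Finset.sum_eq_zero fun T _ => (hG T).2] at h1
    exact (hF.1.analyticAt 1).analyticOrderAt_eq_zero.1 h1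
  · have hd0 : ∀ i, d i ≠ 0 := by
      intro i h0
      refine hd {i} (Finset.singleton_nonempty i) ?_
      rw [Finset.prod_singleton, h0]
      exact ⟨0, rfl⟩
    have hf := fg_gen K hab
    have h1 := rank_gen K d x hx hK hd0 hab hf
    rw [Finset.sum_eq_zero fun T _ => finrank_EQ_zero (h T)] at h1
    unfold rkK at h1
    unfold FinGenK at hf
    have h2 : Module.finrank ℤ (EK K a b) = 0 := by
      convert Nat.le_zero.1 h1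
    have hf' : Module.Finite ℤ (EK K a b) := by
      convert hf
    exact Module.finite_of_fg_torsion _ (Module.finrank_eq_zero_iff_isTorsion.1 h2)

end Pool.Agent.Y687.MQ
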