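import Pool.Agent.Y687.N.MatN
import Pool.Agent.Y687.MQ.One

/-!
Admissible discriminants and the adjunction of a new one.
-/

set_option autoImplicit false
set_option linter.style.haveILetI false

open Finset

namespace Pool.Agent.Y687.MQ

open Pool.Agent.Y687
open Pool.Agent.Z700 (pr Yd lres xrt)
open Pool.Agent.Z701 (Sp Nr xrS ind)
open Pool.Agent.Y232.ZI (lres_symm lres_val)

/-- the data of an admissible discriminant; `Cl` is the class of the sets of inert primes -/
structure Ad (Cl : Finset ℕ → Prop) (P T : Finset ℕ) : Prop where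
  sp : ∀ p ∈ P, Sp p
  inn : ∀ q ∈ T, InertT q
  cl : Cl T
  odd : Odd (Yd lres (fun p => xrt p + ind T p) P)

/-- the discriminant -/
def disc (P T : Finset ℕ) : ℤ := (pr P : ℤ) * DD T

theorem inertT_of_nr {q : ℕ} (h : Nr q) : InertT q := ⟨h.1, Or.inr h.2.1, h.2.2⟩

theorem sp_not_inert {p : ℕ} (h : Sp p) : ¬ InertT p := by
  intro h2
  have h3 := h.2.1
  have h4 := h2.2.1
  omega

/-- the value of the residue symbol -/
theorem lres_of_jac {p q : ℕ} (hp : Sp p) (hq : Odd q) {e : ℤ} (h : jacobiSym q p = e) :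
    lres p q = if e = -1 then 1 else 0 := by
  have hrec : jacobiSym p q = jacobiSym q p :=
    jacobiSym.quadratic_reciprocity_one_mod_four (by have := hp.2.1; omega) hq
  unfold lres
  rw [hrec, h]
  simp only [or_self]

/-- the determinant with a new isolated point -/
theorem yd_insert {l : ℕ → ℕ → ℤ} {x y : ℕ → ℤ} {P : Finset ℕ} {p : ℕ} (hp : p ∉ P)
    (h0 : ∀ k ∈ P, l p k = 0) (h1 : ∀ k ∈ P, l k p = 0) (hxy : ∀ k ∈ P, (Odd (y k) ↔ Odd (x k)))
    (hyp : Odd (y p)) (hx : Odd (Yd l x P)) : Odd (Yd l y (insert p P)) := by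
  classical
  have e1 := Pool.Agent.Z179.yd_step l (fun k => if k = p then 0 else y k) y (insert p P) p
    (Finset.mem_insert_self p P) (fun j _ hj => by simp [hj])
  have e2 : Yd l (fun k => if k = p then 0 else y k) (insert p P) = 0 := by
    unfold Yd
    refine Matrix.det_eq_zero_of_row_eq_zero ⟨p, Finset.mem_insert_self p P⟩ fun j => ?_
    simp only [Matrix.of_apply]
    by_cases hj : (⟨p, Finset.mem_insert_self p P⟩ : (insert p P : Finset ℕ)) = j
    · rw [if_pos hj]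
      simp only [if_true, add_zero]
      rw [Finset.erase_insert hp]
      exact Finset.sum_eq_zero fun k hk => h0 k hk
    · rw [if_neg hj]
      have hjP : (j : ℕ) ∈ P := by
        rcases Finset.mem_insert.1 j.2 with h | h
        · exact absurd (Subtype.ext h.symm) hj
        · exact h
      rw [h0 _ hjP, neg_zero]
  rw [e1, e2, zero_add, if_pos rfl, sub_zero, Finset.erase_insert hp]
  refine hyp.mul ?_
  refine (Pool.Agent.Z701.Yd_mod2 fun k hk => ?_).2 hx
  have hkp : k ≠ p := fun h => hp (h ▸ hk)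
  rw [if_neg hkp, h1 k hk, add_zero]
  exact hxy k hk

theorem ind_insert {T : Finset ℕ} {r p : ℕ} (hr : r ∉ T) : ind (insert r T) p = lres p r + ind T p := by
  unfold ind
  exact Finset.sum_insert hr

/-- adjunction of a new prime -/
theorem Ad.ext {Cl : Finset ℕ → Prop} {P T : Finset ℕ} (h : Ad Cl P T) {p r r' : ℕ} (hp : Sp p)
    (hr : Nr r) (hr' : Nr r') (hpP : p ∉ P) (hrT : r ∉ T) (hrT' : r' ∉ T) (hrr : r ≠ r')
    (hCl : Cl (insert r (insert r' T)))
    (h1 : ∀ l ∈ P, lres p l = 0) (h2 : ∀ q ∈ T, lres p q = 0) (h3 : ∀ l ∈ P, lres l r = 0)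
    (h4 : ∀ l ∈ P, lres l r' = 0) (h5 : lres p r' = 0) (h6 : Odd (xrt p + lres p r)) :
    Ad Cl (insert p P) (insert r (insert r' T)) := by
  have hr1 : r ∉ insert r' T := by
    rw [Finset.mem_insert, not_or]
    exact ⟨hrr, hrT⟩
  have hi : ∀ l, ind (insert r (insert r' T)) l = lres l r + (lres l r' + ind T l) := by
    intro l
    rw [ind_insert hr1, ind_insert hrT']
  refine ⟨?_, ?_, hCl, ?_⟩
  · intro q hq
    rcases Finset.mem_insert.1 hq with rfl | hq
    · exact hp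
    · exact h.sp q hq
  · intro q hq
    rcases Finset.mem_insert.1 hq with rfl | hq
    · exact inertT_of_nr hr
    rcases Finset.mem_insert.1 hq with rfl | hq
    · exact inertT_of_nr hr'
    · exact h.inn q hq
  · refine yd_insert hpP h1 (fun k hk => by rw [lres_symm]; exact h1 k hk) ?_ ?_ h.odd
    · intro k hk
      simp only [hi]
      rw [h3 k hk, h4 k hk, zero_add, zero_add]
    · simp only [hi]
      have h7 : ind T p = 0 := by
        unfold ind
        exact Finset.sum_eq_zero h2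
      rw [h5, h7, add_zero, add_zero]
      exact h6

theorem DD_insert {T : Finset ℕ} {r : ℕ} (hr : r ∉ T) : DD (insert r T) = qs r * DD T := by
  unfold DD
  exact Finset.prod_insert hr

theorem qs_nr {r : ℕ} (hr : Nr r) : qs r = r := by
  unfold qs
  rw [if_pos]
  have := hr.2.1
  omega

theorem disc_insert {P T : Finset ℕ} {p r r' : ℕ} (hr : Nr r) (hr' : Nr r') (hpP : p ∉ P)
    (hrT : r ∉ T) (hrT' : r' ∉ T) (hrr : r ≠ r') :
    disc (insert p P) (insert r (insert r' T)) = (p * r * r' : ℤ) * disc P T := by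
  have hr1 : r ∉ insert r' T := by
    rw [Finset.mem_insert, not_or]
    exact ⟨hrr, hrT⟩
  unfold disc
  rw [DD_insert hr1, DD_insert hrT', qs_nr hr, qs_nr hr']
  unfold pr
  rw [Finset.prod_insert hpP]
  push_cast
  ring

theorem Ad.sqf {Cl : Finset ℕ → Prop} {P T : Finset ℕ} (h : Ad Cl P T) :
    Squarefree (disc P T) := by
  have hPp : ∀ p ∈ P, p.Prime := fun p hp => (h.sp p hp).1
  have hTp : ∀ p ∈ T, p.Prime := fun p hp => (h.inn p hp).1
  have hdisj : Disjoint P T := by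
    rw [Finset.disjoint_left]
    intro p hp hq
    exact sp_not_inert (h.sp p hp) (h.inn p hq)
  have e : (disc P T).natAbs = ∏ q ∈ P ∪ T, q := by
    unfold disc
    rw [Int.natAbs_mul, Int.natAbs_natCast, DD_natAbs, Finset.prod_union hdisj]
    rfl
  rw [← Int.squarefree_natAbs, e]
  refine squarefree_prod fun q hq => ?_
  rcases Finset.mem_union.1 hq with h | h
  · exact hPp q h
  · exact hTp q h

/-- a nonzero square times a squarefree number `≠ 1` is not a square -/
theorem not_sq {D k : ℤ} (hD : Squarefree D) (h1 : D ≠ 1) (hk : k ≠ 0) : ¬ IsSquare (D * k ^ 2) := by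
  rintro ⟨m, hm⟩
  have h2 : k ^ 2 ∣ m ^ 2 := ⟨D, by rw [sq m, ← hm]; ring⟩
  have h3 : k ∣ m := (Int.pow_dvd_pow_iff two_ne_zero).1 h2
  obtain ⟨t, rfl⟩ := h3
  have h4 : D = t * t := by
    have h5 : k ^ 2 * (D - t * t) = 0 := by linear_combination hm
    rcases mul_eq_zero.1 h5 with h6 | h6
    · exact absurd h6 (pow_ne_zero 2 hk)
    · linarith
  have h7 : IsUnit t := hD t (by rw [h4])
  rcases Int.isUnit_iff.1 h7 with h8 | h8
  · rw [h8] at h4; exact h1 (by rw [h4]; norm_num)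
  · rw [h8] at h4; exact h1 (by rw [h4]; norm_num)

/-- all products are admissible discriminants up to squares -/
def AdT (Cl : Finset ℕ → Prop) {n : ℕ} (M : ℤ) (d : Fin n → ℤ) : Prop :=
  ∀ S : Finset (Fin n), ∃ (P T : Finset ℕ) (k : ℤ), Ad Cl P T ∧
    k ≠ 0 ∧ M * ∏ i ∈ S, d i = disc P T * k ^ 2

/-- independence modulo squares -/
def Ind {n : ℕ} (d : Fin n → ℤ) : Prop :=
  ∀ T : Finset (Fin n), T.Nonempty → ¬ IsSquare (∏ i ∈ T, d i)

theorem AdT.M_ne {Cl : Finset ℕ → Prop} {n : ℕ} {M : ℤ} {d : Fin n → ℤ} (h : AdT Cl M d) :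
    M ≠ 0 := by
  obtain ⟨P, T, k, h1, h2, h3⟩ := h ∅
  rintro rfl
  rw [zero_mul] at h3
  exact mul_ne_zero h1.sqf.ne_zero (pow_ne_zero 2 h2) h3.symm

theorem prod_snoc {n : ℕ} (d : Fin n → ℤ) (D : ℤ) (S : Finset (Fin (n + 1))) :
    ∏ i ∈ S, (Fin.snoc d D : Fin (n + 1) → ℤ) i =
      (∏ i ∈ Finset.univ.filter (fun i : Fin n => i.castSucc ∈ S), d i) *
        (if Fin.last n ∈ S then D else 1) := by
  classical
  have h1 : ∏ i ∈ S, (Fin.snoc d D : Fin (n + 1) → ℤ) i =
      ∏ i : Fin (n + 1), if i ∈ S then (Fin.snoc d D : Fin (n + 1) → ℤ) i else 1 := by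
    rw [Finset.prod_ite_mem]
    simp
  rw [h1, Fin.prod_univ_castSucc]
  congr 1
  · rw [Finset.prod_filter]
    refine Finset.prod_congr rfl fun i _ => ?_
    rw [Fin.snoc_castSucc]
  · rw [Fin.snoc_last]

/-- primes `≡ 1` modulo `8`, `7` and given primes -/
theorem inf_p (L : Finset ℕ) (hL : ∀ l ∈ L, l.Prime ∧ Odd l) (B : ℕ) :
    {p : ℕ | Sp p ∧ B < p ∧ ∀ l ∈ L, lres p l = 0}.Infinite := by
  have hk : 56 * ∏ l ∈ L, l ≠ 0 :=
    mul_ne_zero (by norm_num) (Finset.prod_ne_zero_iff.2 fun l hl => (hL l hl).1.ne_zero)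
  refine ((Nat.infinite_setOfPred_prime_modEq_one hk).sdiff (Set.finite_Iic B)).mono ?_
  rintro p ⟨⟨hp, hmod⟩, hB⟩
  have hB' : B < p := by
    rw [Set.mem_Iic, not_le] at hB
    exact hB
  have h56 : p ≡ 1 [MOD 56] := hmod.of_dvd (Dvd.intro _ rfl)
  have h561 : p % 56 = 1 := h56
  have hsp : Sp p := ⟨hp, by omega, by omega⟩
  refine ⟨hsp, hB', fun l hl => ?_⟩
  have hl1 : p ≡ 1 [MOD l] := hmod.of_dvd ((Finset.dvd_prod_of_mem _ hl).mul_left 56)
  have h2 : jacobiSym p l = 1 := by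
    have h3 : jacobiSym (p : ℤ) l = jacobiSym (1 : ℤ) l := by
      apply jacobiSym.mod_left'
      exact_mod_cast hl1
    rw [h3, jacobiSym.one_left]
  have hrec : jacobiSym p l = jacobiSym l p :=
    jacobiSym.quadratic_reciprocity_one_mod_four (by omega) (hL l hl).2
  unfold lres
  rw [← hrec, h2]
  norm_num

/-- a prime dividing exactly once -/
theorem not_sq_of_prime {p : ℕ} (hp : p.Prime) {u : ℤ} (hu : ¬ (p : ℤ) ∣ u) :
    ¬ IsSquare (p * u : ℤ) := by
  rintro ⟨m, hm⟩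
  have hpp : Prime (p : ℤ) := Nat.prime_iff_prime_int.1 hp
  have h1 : (p : ℤ) ∣ m * m := ⟨u, hm.symm⟩
  have h2 : (p : ℤ) ∣ m := by
    rcases hpp.dvd_or_dvd h1 with h | h <;> exact h
  obtain ⟨t, rfl⟩ := h2
  have h3 : (p : ℤ) * (u - p * (t * t)) = 0 := by linear_combination hm
  rcases mul_eq_zero.1 h3 with h4 | h4
  · exact hpp.ne_zero h4
  · exact hu ⟨t * t, by linarith⟩

/-- adjunction of a new square root -/
theorem AdT.ext {Cl : Finset ℕ → Prop}
    (hCl : ∀ T : Finset ℕ, Cl T → ∀ r r' : ℕ, Nr r → Nr r' → r ≠ r' → r ∉ T → r' ∉ T →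
      Cl (insert r (insert r' T))) {n : ℕ} {M : ℤ} {d : Fin n → ℤ} (h : AdT Cl M d)
    (hind : Ind d) :
    {p : ℕ | Sp p ∧ ¬ (p : ℤ) ∣ M ∧ (∀ i, ¬ (p : ℤ) ∣ d i) ∧ ∃ r r' : ℕ, Nr r ∧ Nr r' ∧ r ≠ r' ∧
      Ind (Fin.snoc d ((p * r * r' : ℕ) : ℤ) : Fin (n + 1) → ℤ) ∧
      AdT Cl M (Fin.snoc d ((p * r * r' : ℕ) : ℤ) : Fin (n + 1) → ℤ)}.Infinite := by
  classical
  have hM := h.M_ne
  choose P T k h1 h2 h3 using h
  set LP : Finset ℕ := Finset.univ.biUnion P with hLP
  set LT : Finset ℕ := Finset.univ.biUnion T with hLT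
  have hPm : ∀ S, ∀ l ∈ P S, l ∈ LP := fun S l hl => Finset.mem_biUnion.2 ⟨S, Finset.mem_univ S, hl⟩
  have hTm : ∀ S, ∀ l ∈ T S, l ∈ LT := fun S l hl => Finset.mem_biUnion.2 ⟨S, Finset.mem_univ S, hl⟩
  have hLPs : ∀ l ∈ LP, Sp l := by
    intro l hl
    obtain ⟨S, -, hS⟩ := Finset.mem_biUnion.1 hl
    exact (h1 S).sp l hS
  have hLTs : ∀ l ∈ LT, InertT l := by
    intro l hl
    obtain ⟨S, -, hS⟩ := Finset.mem_biUnion.1 hl
    exact (h1 S).inn l hS
  have hd0 : ∀ i, d i ≠ 0 := by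
    intro i hi
    refine hind {i} (Finset.singleton_nonempty i) ?_
    rw [Finset.prod_singleton, hi]
    exact ⟨0, rfl⟩
  set B : ℕ := LP.sup id + ∑ i, (d i).natAbs + M.natAbs with hB
  refine (inf_p (LP ∪ LT) ?_ B).mono ?_
  · intro l hl
    rcases Finset.mem_union.1 hl with hl | hl
    · refine ⟨(hLPs l hl).1, ?_⟩
      rw [Nat.odd_iff]
      have := (hLPs l hl).2.1
      omega
    · exact ⟨(hLTs l hl).1, Nat.odd_iff.2 (hLTs l hl).odd⟩
  rintro p ⟨hp, hpB, hpl⟩
  have hpp : Prime (p : ℤ) := Nat.prime_iff_prime_int.1 hp.1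
  have hpLP : p ∉ LP := by
    intro hh
    have h4 : id p ≤ LP.sup id := Finset.le_sup hh
    simp only [id] at h4
    omega
  have hpM : ¬ (p : ℤ) ∣ M := by
    intro hi
    have h4 : p ∣ M.natAbs := Int.natCast_dvd.1 hi
    have h5 := Nat.le_of_dvd (Int.natAbs_pos.2 hM) h4
    omega
  have hpd : ∀ i, ¬ (p : ℤ) ∣ d i := by
    intro i hi
    have h4 : p ∣ (d i).natAbs := Int.natCast_dvd.1 hi
    have h5 := Nat.le_of_dvd (Int.natAbs_pos.2 (hd0 i)) h4
    have h6 : (d i).natAbs ≤ ∑ j, (d j).natAbs :=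
      Finset.single_le_sum (f := fun j => (d j).natAbs) (fun _ _ => Nat.zero_le _)
        (Finset.mem_univ i)
    omega
  -- the inert primes
  have hF : ∀ l ∈ insert p LP, Sp l := by
    intro l hl
    rcases Finset.mem_insert.1 hl with rfl | hl
    · exact hp
    · exact hLPs l hl
  obtain ⟨r, ⟨hr, hrJ⟩, hrn⟩ := ((Pool.Agent.Y155.Z701.inf_nr (insert p LP) hF
    (fun l => if l = p ∧ ¬ Odd (xrt p) then -1 else 1) (fun l _ => by
      by_cases hl : l = p ∧ ¬ Odd (xrt p)
      · right; rw [if_pos hl]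
      · left; rw [if_neg hl])).sdiff LT.finite_toSet).nonempty
  obtain ⟨r', ⟨hr', hrJ'⟩, hrn'⟩ := ((Pool.Agent.Y155.Z701.inf_nr (insert p LP) hF
    (fun l => 1) (fun l _ => Or.inl rfl)).sdiff (insert r LT).finite_toSet).nonempty
  have hrodd : Odd r := by
    rw [Nat.odd_iff]; have := hr.2.1; omega
  have hrodd' : Odd r' := by
    rw [Nat.odd_iff]; have := hr'.2.1; omega
  have hrLT : r ∉ LT := fun hh => hrn (by exact_mod_cast hh)
  have hrLT' : r' ∉ insert r LT := fun hh => hrn' (by exact_mod_cast hh)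
  rw [Finset.mem_insert, not_or] at hrLT'
  have hrr : r ≠ r' := fun hh => hrLT'.1 hh.symm
  have hprr : ¬ (p : ℤ) ∣ ((r * r' : ℕ) : ℤ) := by
    intro hh
    have h4 : p ∣ r * r' := by exact_mod_cast hh
    rcases hp.1.dvd_mul.1 h4 with h5 | h5
    · have h6 := (Nat.prime_dvd_prime_iff_eq hp.1 hr.1).1 h5
      exact sp_not_inert hp (h6 ▸ inertT_of_nr hr)
    · have h6 := (Nat.prime_dvd_prime_iff_eq hp.1 hr'.1).1 h5
      exact sp_not_inert hp (h6 ▸ inertT_of_nr hr')
  refine ⟨hp, hpM, hpd, r, r', hr, hr', hrr, ?_, ?_⟩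
  · intro S hS
    rw [prod_snoc]
    by_cases hlast : Fin.last n ∈ S
    · rw [if_pos hlast]
      set S' := Finset.univ.filter (fun i : Fin n => i.castSucc ∈ S) with hS'
      have e : (∏ i ∈ S', d i) * ((p * r * r' : ℕ) : ℤ) =
          p * (((r * r' : ℕ) : ℤ) * ∏ i ∈ S', d i) := by
        push_cast
        ring
      rw [e]
      refine not_sq_of_prime hp.1 fun hh => ?_
      rcases hpp.dvd_or_dvd hh with h4 | h4
      · exact hprr h4
      · rw [hpp.dvd_finsetProd_iff] at h4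
        obtain ⟨i, -, hi⟩ := h4
        exact hpd i hi
    · rw [if_neg hlast, mul_one]
      have hne : (Finset.univ.filter (fun i : Fin n => i.castSucc ∈ S)).Nonempty := by
        obtain ⟨i, hi⟩ := hS
        rcases Fin.eq_castSucc_or_eq_last i with ⟨j, rfl⟩ | rfl
        · exact ⟨j, by simpa using hi⟩
        · exact absurd hi hlast
      exact hind _ hne
  -- the new data
  have key : ∀ S, Ad Cl (insert p (P S)) (insert r (insert r' (T S))) := by
    intro S
    refine (h1 S).ext hp hr hr' (fun hh => hpLP (hPm S p hh)) (fun hh => hrLT (hTm S r hh))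
      (fun hh => hrLT'.2 (hTm S r' hh)) hrr ?_ ?_ ?_ ?_ ?_ ?_ ?_
    · exact hCl (T S) (h1 S).cl r r' hr hr' hrr (fun hh => hrLT (hTm S r hh))
        (fun hh => hrLT'.2 (hTm S r' hh))
    · exact fun l hl => hpl l (Finset.mem_union_left _ (hPm S l hl))
    · exact fun l hl => hpl l (Finset.mem_union_right _ (hTm S l hl))
    · intro l hl
      have hlp : l ≠ p := fun hh => hpLP (hh ▸ hPm S l hl)
      have h4 := hrJ l (Finset.mem_insert_of_mem (hPm S l hl))
      rw [if_neg (fun hh => hlp hh.1)] at h4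
      rw [lres_of_jac ((h1 S).sp l hl) hrodd h4]
      norm_num
    · intro l hl
      have h4 := hrJ' l (Finset.mem_insert_of_mem (hPm S l hl))
      rw [lres_of_jac ((h1 S).sp l hl) hrodd' h4]
      norm_num
    · have h4 := hrJ' p (Finset.mem_insert_self p LP)
      rw [lres_of_jac hp hrodd' h4]
      norm_num
    · have h4 := hrJ p (Finset.mem_insert_self p LP)
      rw [lres_of_jac hp hrodd h4]
      by_cases hx : Odd (xrt p)
      · have e1 : (if p = p ∧ ¬ Odd (xrt p) then (-1 : ℤ) else 1) = 1 := if_neg fun hh => hh.2 hx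
        rw [e1]
        norm_num
        exact hx
      · have e1 : (if p = p ∧ ¬ Odd (xrt p) then (-1 : ℤ) else 1) = -1 := if_pos ⟨rfl, hx⟩
        rw [e1, if_pos rfl]
        exact (Int.not_odd_iff_even.1 hx).add_one
  intro S
  rw [prod_snoc]
  set S' := Finset.univ.filter (fun i : Fin n => i.castSucc ∈ S) with hS'
  by_cases hlast : Fin.last n ∈ S
  · rw [if_pos hlast]
    refine ⟨insert p (P S'), insert r (insert r' (T S')), k S', key S', h2 S', ?_⟩
    rw [disc_insert hr hr' (fun hh => hpLP (hPm S' p hh)) (fun hh => hrLT (hTm S' r hh))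
      (fun hh => hrLT'.2 (hTm S' r' hh)) hrr]
    have e := h3 S'
    push_cast
    linear_combination (p * r * r' : ℤ) * e
  · rw [if_neg hlast, mul_one]
    exact ⟨P S', T S', k S', h1 S', h2 S', h3 S'⟩

/-- the same field, a new twist -/
theorem AdT.twist {Cl : Finset ℕ → Prop} {n : ℕ} {M D : ℤ} {d : Fin n → ℤ}
    (h : AdT Cl M (Fin.snoc d D : Fin (n + 1) → ℤ)) : AdT Cl (M * D) d := by
  classical
  intro S
  obtain ⟨P, T, k, h1, h2, h3⟩ := h (insert (Fin.last n) (S.image Fin.castSucc))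
  refine ⟨P, T, k, h1, h2, ?_⟩
  rw [← h3, prod_snoc, if_pos (Finset.mem_insert_self _ _)]
  have e : (Finset.univ.filter (fun i : Fin n => i.castSucc ∈
      insert (Fin.last n) (S.image Fin.castSucc))) = S := by
    ext i
    simp only [Finset.mem_filter, Finset.mem_univ, true_and, Finset.mem_insert, Finset.mem_image]
    constructor
    · rintro (h4 | ⟨j, hj, h4⟩)
      · exact absurd h4 (Fin.castSucc_lt_last i).ne
      · rw [← Fin.castSucc_injective n h4]
        exact hj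
    · exact fun hi => Or.inr ⟨i, hi, rfl⟩
  rw [e]
  ring

end Pool.Agent.Y687.MQ
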