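import Pool.Agent.Y687.MQ.Abs
import Pool.Agent.Y687.MQ.Ext

/-!
The twists, the matrix, and the theorem over multiquadratic fields.
-/

set_option autoImplicit false
set_option linter.style.haveILetI false

open Finset

namespace Pool.Agent.Y687.MQ

open Pool.Agent.Y687
open Pool.Agent.Y687.N (lres_iff')
open Pool.Agent.Z700 (pr Yd lres xrt)
open Pool.Agent.Z701 (Sp Nr xrS ind)
open Pool.Agent.Y700 (Rt)
open Pool.Agent.Y19.QT (Indep EK IsLFunK)

open Classical in
/-- the matrix over `𝔽₂` -/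
noncomputable def matT (P T : Finset ℕ) : Matrix P P (ZMod 2) := Matrix.of fun i j =>
  if i = j then
    ((((P ∪ T).filter fun r : ℕ => r ≠ (i : ℕ) ∧ ¬ IsSquare (r : ZMod (i : ℕ))).card :
      ZMod 2) + if 8 ∣ NN 1 (i : ℕ) then 0 else 1)
  else if IsSquare (((j : ℕ)) : ZMod (i : ℕ)) then 0 else 1

theorem matT_iff {P T : Finset ℕ} (hP : ∀ p ∈ P, Sp p) (hT : ∀ q ∈ T, InertT q) :
    (matT P T).det ≠ 0 ↔ Odd (Yd lres (fun p => xrt p + ind T p) P) := by
  classical
  have hdisj : Disjoint P T := by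
    rw [Finset.disjoint_left]
    intro p hp hq
    exact sp_not_inert (hP p hp) (hT p hq)
  have h2 : ∀ z : ℤ, Odd z ↔ (z : ZMod 2) ≠ 0 := by
    intro z
    rw [← Int.not_even_iff_odd, ← ZMod.intCast_eq_zero_iff_even]
  rw [h2]
  have hodd : ∀ r ∈ P ∪ T, Odd r := by
    intro r hr
    rw [Nat.odd_iff]
    rcases Finset.mem_union.1 hr with hr | hr
    · have := (hP r hr).2.1
      omega
    · exact (hT r hr).odd
  have hpr : ∀ r ∈ P ∪ T, r.Prime := by
    intro r hr
    rcases Finset.mem_union.1 hr with hr | hr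
    · exact (hP r hr).1
    · exact (hT r hr).1
  have h3 : ((Yd lres (fun p => xrt p + ind T p) P : ℤ) : ZMod 2) = (matT P T).det := by
    unfold Yd
    have e1 := fun M : Matrix P P ℤ => (Int.castRingHom (ZMod 2)).map_det M
    simp only [eq_intCast] at e1
    rw [e1]
    congr 1
    ext i j
    have hi := hP i.1 i.2
    simp only [RingHom.mapMatrix_apply, Matrix.map_apply, Matrix.of_apply, eq_intCast, matT]
    by_cases hij : i = j
    · subst hij
      rw [if_pos rfl, if_pos rfl]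
      unfold ind
      push_cast
      have e2 : (∑ k ∈ P.erase i.1, ((lres i.1 k : ℤ) : ZMod 2)) +
          ∑ q ∈ T, ((lres i.1 q : ℤ) : ZMod 2) =
          (((P ∪ T).filter fun r : ℕ => r ≠ (i : ℕ) ∧ ¬ IsSquare (r : ZMod (i : ℕ))).card :
            ZMod 2) := by
        have hiT : (i : ℕ) ∉ T := fun h => sp_not_inert hi (hT _ h)
        rw [Finset.card_filter]
        push_cast
        rw [Finset.sum_union hdisj]
        have key : ∀ k ∈ P ∪ T, k ≠ (i : ℕ) → ((lres i.1 k : ℤ) : ZMod 2) =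
            if k ≠ (i : ℕ) ∧ ¬ IsSquare (k : ZMod (i : ℕ)) then 1 else 0 := by
          intro k hk hk1
          rcases lres_iff' hi (hpr k hk) (Ne.symm hk1) (hodd k hk) with ⟨a, b⟩ | ⟨a, b⟩
          · rw [a, if_pos ⟨hk1, b⟩]; norm_num
          · rw [a, if_neg (fun h => h.2 b)]; norm_num
        congr 1
        · rw [← Finset.sum_erase (s := P) (a := i.1) (by rw [if_neg (fun h => h.1 rfl)])]
          refine Finset.sum_congr rfl fun k hk => ?_
          exact key k (Finset.mem_union_left _ (Finset.mem_of_mem_erase hk)) (Finset.mem_erase.1 hk).1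
        · refine Finset.sum_congr rfl fun k hk => ?_
          exact key k (Finset.mem_union_right _ hk) (fun h => hiT (h ▸ hk))
      rw [← e2]
      have e3 : ((xrt i.1 : ℤ) : ZMod 2) = if 8 ∣ NN 1 (i : ℕ) then 0 else 1 := by
        have hR := Pool.Agent.Z701.f_RTE i.1 hi ∅ (by simp)
        have e4 : pr ∅ = 1 := by unfold pr; simp
        rw [e4] at hR
        unfold xrt
        by_cases h8 : 8 ∣ NN 1 (i : ℕ)
        · rw [if_pos h8, if_neg (fun h => (hR.1 h) h8)]
          norm_num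
        · rw [if_neg h8, if_pos (hR.2 h8)]
          norm_num
      rw [e3]
      ring
    · rw [if_neg hij, if_neg hij]
      have hj := hP j.1 j.2
      have hne : (i : ℕ) ≠ j := fun h => hij (Subtype.ext h)
      rcases lres_iff' hi hj.1 hne (hodd j.1 (Finset.mem_union_left _ j.2)) with ⟨a, b⟩ | ⟨a, b⟩
      · rw [a, if_neg b]; decide
      · rw [a, if_pos b]; norm_num
  rw [h3]

/-- an even number of primes `≡ 5` modulo `8` -/
def ClA (T : Finset ℕ) : Prop := (∀ q ∈ T, q % 8 = 5) ∧ Even T.card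

theorem ClA_empty : ClA ∅ := ⟨by simp, by simp⟩

theorem ClA_ext (T : Finset ℕ) (h : ClA T) (r r' : ℕ) (hr : Nr r) (hr' : Nr r') (hrr : r ≠ r')
    (hrT : r ∉ T) (hrT' : r' ∉ T) : ClA (insert r (insert r' T)) := by
  have hr1 : r ∉ insert r' T := by
    rw [Finset.mem_insert, not_or]
    exact ⟨hrr, hrT⟩
  refine ⟨?_, ?_⟩
  · intro q hq
    rcases Finset.mem_insert.1 hq with rfl | hq
    · exact hr.2.1
    rcases Finset.mem_insert.1 hq with rfl | hq
    · exact hr'.2.1
    · exact h.1 q hq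
  · rw [Finset.card_insert_of_notMem hr1, Finset.card_insert_of_notMem hrT']
    obtain ⟨m, hm⟩ := h.2
    exact ⟨m + 1, by omega⟩

theorem DD_nr {T : Finset ℕ} (hT : ∀ q ∈ T, Nr q) : DD T = pr T := by
  unfold DD pr
  push_cast
  exact Finset.prod_congr rfl fun q hq => qs_nr (hT q hq)

theorem WB_A {P T : Finset ℕ} (h : Ad ClA P T) : WB (disc P T) := by
  have hT : ∀ q ∈ T, Nr q := fun q hq => ⟨(h.inn q hq).1, h.cl.1 q hq, (h.inn q hq).2.2⟩
  rcases P.eq_empty_or_nonempty with rfl | hne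
  · have e : disc ∅ T = DD T := by
      unfold disc pr
      simp
    rw [e]
    rcases T.eq_empty_or_nonempty with rfl | hne
    · have e2 : DD ∅ = 1 := by unfold DD; simp
      rw [e2]
      exact WB_one
    · exact mainI h.inn hne
  · have e : disc P T = ((pr P * pr T : ℕ) : ℤ) := by
      unfold disc
      rw [DD_nr hT]
      push_cast
      rfl
    rw [e]
    have hY : Odd (Yd lres (xrS T) P) :=
      (Pool.Agent.Z701.Yd_mod2 fun p hp => Pool.Agent.Z701.f_XRS p (h.sp p hp) T hT).2 h.odd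
    exact Pool.Agent.Z701.weak Pool.Agent.Z700.f_SYM Pool.Agent.Z701.f_DIAG Pool.Agent.Z701.f_IND
      Pool.Agent.Y655.Z7.t_RTE Pool.Agent.Z701.f_XRS Pool.Agent.Z701.f_SELA Pool.Agent.Z701.f_SELB
      h.sp hT h.cl.2 hne hY

/-- the theorem over multiquadratic fields -/
theorem field_thm {Cl : Finset ℕ → Prop} (hWB : ∀ P T : Finset ℕ, Ad Cl P T → WB (disc P T))
    {n : ℕ} {M : ℤ} {d : Fin n → ℤ} (h : AdT Cl M d) (hind : Ind d) (K : Type) [Field K]
    [NumberField K] (x : Fin n → K) (hx : ∀ i, x i ^ 2 = (d i : K))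
    (hK : IntermediateField.adjoin ℚ (Set.range x) = ⊤) :
    (∃ F : ℂ → ℂ, IsLFunK K (5805 * M ^ 2) (-285714 * M ^ 3) (∏ i, d i) F ∧ F 1 ≠ 0) ∧
      Finite (EK K (5805 * M ^ 2) (-285714 * M ^ 3)) := by
  have hab : (4 * 5805 ^ 3 + 27 * (-285714) ^ 2 : ℤ) ≠ 0 := by norm_num
  refine mq_zero hind (disc_ne hab h.M_ne) ?_ K x hx hK
  intro S
  obtain ⟨P, T, k, h1, h2, h3⟩ := h S
  have e1 : 5805 * M ^ 2 * (∏ i ∈ S, d i) ^ 2 = 5805 * (disc P T * k ^ 2) ^ 2 := by
    rw [← h3]; ring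
  have e2 : -285714 * M ^ 3 * (∏ i ∈ S, d i) ^ 3 = -285714 * (disc P T * k ^ 2) ^ 3 := by
    rw [← h3]; ring
  rw [e1, e2]
  exact ZB_scale hab h1.sqf.ne_zero h2 (ZB_of_WB (hWB P T h1))

theorem isLFunK_unique {K : Type} [Field K] {a b D : ℤ} {F G : ℂ → ℂ} (hF : IsLFunK K a b D F)
    (hG : IsLFunK K a b D G) : F = G := by
  have hF' : AnalyticOnNhd ℂ F Set.univ := fun z _ => hF.1.analyticAt z
  have hG' : AnalyticOnNhd ℂ G Set.univ := fun z _ => hG.1.analyticAt z
  refine hF'.eq_of_eventuallyEq hG' (z₀ := 2) ?_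
  have hmem : {s : ℂ | (3 : ℝ) / 2 < s.re} ∈ nhds (2 : ℂ) :=
    (isOpen_lt continuous_const Complex.continuous_re).mem_nhds (by
      show (3 : ℝ) / 2 < (2 : ℂ).re
      norm_num)
  filter_upwards [hmem] with s hs
  exact (hF.2 s hs).unique (hG.2 s hs)

end Pool.Agent.Y687.MQ
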