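import Pool.Agent.Y17.G.Main
import Pool.Agent.Y687.MQ.Crit

/-!
Existence of inert primes to be added, any inert set.
-/

set_option autoImplicit false
set_option linter.style.haveILetI false

open Finset

namespace Pool.Agent.Y687.MQ

open Pool.Agent.Y687
open Pool.Agent.Y687.N (xrZ inf_neg)
open Pool.Agent.Z700 (pr Yd lres xrt xres)
open Pool.Agent.Z701 (Sp Nr ind)

/-- the two forms of the determinant condition, `m = ± pr S` -/
theorem det_ind {P S : Finset ℕ} {m : ℤ} (hP : ∀ p ∈ P, Sp p) (hS : ∀ r ∈ S, InertT r)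
    (hm : m = pr S ∨ m = -(pr S : ℤ)) :
    Odd (Yd lres (xrZ m) P) ↔ Odd (Yd lres (fun p => xrt p + ind S p) P) := by
  refine Pool.Agent.Z701.Yd_mod2 fun p hp => ?_
  rw [(Pool.Agent.Y17.G.diag_gen (hP p hp) hS hm).2]
  have hx : xres p = xrt p := (Pool.Agent.Z701.x_eq Pool.Agent.Z700.f_SYM Pool.Agent.Z701.f_DIAG
    Pool.Agent.Z701.f_IND Pool.Agent.Y655.Z7.t_RTE (hP p hp))
  have e : ∑ r ∈ S, Pool.Agent.Y17.N.eQ r p = ind S p := by
    unfold ind
    refine Finset.sum_congr rfl fun r hr => ?_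
    have hrec : jacobiSym p r = jacobiSym r p :=
      jacobiSym.quadratic_reciprocity_one_mod_four (by have := (hP p hp).2.1; omega)
        (Nat.odd_iff.2 (hS r hr).odd)
    unfold Pool.Agent.Y17.N.eQ lres
    rw [hrec]
    simp only [or_self]
  rw [hx, e]

/-- infinitely many inert primes in a class modulo `8` with given symbols -/
theorem inf_in (F : Finset ℕ) (hF : ∀ p ∈ F, Sp p) (s : ℕ → ℤ)
    (hs : ∀ p ∈ F, s p = 1 ∨ s p = -1) {e : ℕ} (he : e = 3 ∨ e = 5) :
    {q | InertT q ∧ q % 8 = e ∧ ∀ p ∈ F, jacobiSym q p = s p}.Infinite := by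
  rcases he with rfl | rfl
  · refine (inf_neg F hF s hs).mono ?_
    rintro q ⟨h1, h2, h3⟩
    exact ⟨⟨h1, Or.inl (by omega), Or.inl (by omega)⟩, by omega, h3⟩
  · refine (Pool.Agent.Y155.Z701.inf_nr F hF s hs).mono ?_
    rintro q ⟨h1, h2⟩
    exact ⟨inertT_of_nr h1, h1.2.1, h2⟩

/-- existence of an inert prime to be added -/
theorem inf_ind {P T : Finset ℕ} (hP : ∀ p ∈ P, Sp p) {e : ℕ} (he : e = 3 ∨ e = 5) :
    {q : ℕ | InertT q ∧ q % 8 = e ∧ q ∉ T ∧
      Odd (Yd lres (fun p => xrt p + ind (insert q T) p) P)}.Infinite := by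
  classical
  obtain ⟨ε, hε, ho⟩ := Pool.Agent.Y155.Z701.exists_e lres P (fun p => xrt p + ind T p)
  have hinf := inf_in P hP (fun p => if ε p = 1 then -1 else 1) (fun p _ => by
    by_cases h1 : ε p = 1
    · right; simp [h1]
    · left; simp [h1]) he
  refine (hinf.sdiff T.finite_toSet).mono ?_
  rintro q ⟨⟨hq, hq8, hJ⟩, hqT⟩
  have hqT' : q ∉ T := fun h => hqT (by exact_mod_cast h)
  refine ⟨hq, hq8, hqT', ?_⟩
  refine (Pool.Agent.Z701.Yd_mod2 fun p hp => ?_).1 ho
  rw [ind_insert hqT', lres_of_jac (hP p hp) (Nat.odd_iff.2 hq.odd) (hJ p hp)]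
  have e1 : (if (if ε p = 1 then (-1 : ℤ) else 1) = -1 then (1 : ℤ) else 0) = ε p := by
    rcases hε p with h1 | h1
    · rw [h1]; norm_num
    · rw [h1]; norm_num
  rw [e1, add_comm (ε p), add_assoc]

/-- the same in terms of the roots, negative twists -/
theorem inf_negG {P S : Finset ℕ} (hP : ∀ p ∈ P, Sp p) (hS : ∀ r ∈ S, InertT r) {e : ℕ}
    (he : e = 3 ∨ e = 5) :
    {q : ℕ | InertT q ∧ q % 8 = e ∧ q ∉ S ∧
      Odd (Yd lres (xrZ (-(pr (insert q S) : ℤ))) P)}.Infinite := by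
  classical
  refine (inf_ind (T := S) hP he).mono ?_
  rintro q ⟨h1, h2, h3, h4⟩
  refine ⟨h1, h2, h3, (det_ind hP ?_ (Or.inr rfl)).2 h4⟩
  intro r hr
  rcases Finset.mem_insert.1 hr with rfl | hr
  · exact h1
  · exact hS r hr

/-- the same in terms of the roots, positive twists -/
theorem inf_posG {P S : Finset ℕ} (hP : ∀ p ∈ P, Sp p) (hS : ∀ r ∈ S, InertT r) {e : ℕ}
    (he : e = 3 ∨ e = 5) :
    {q : ℕ | InertT q ∧ q % 8 = e ∧ q ∉ S ∧
      Odd (Yd lres (xrZ (pr (insert q S) : ℤ)) P)}.Infinite := by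
  classical
  refine (inf_ind (T := S) hP he).mono ?_
  rintro q ⟨h1, h2, h3, h4⟩
  refine ⟨h1, h2, h3, (det_ind hP ?_ (Or.inl rfl)).2 h4⟩
  intro r hr
  rcases Finset.mem_insert.1 hr with rfl | hr
  · exact h1
  · exact hS r hr

/-! ### the general class -/

/-- an even number of primes `≡ 5` modulo `8`, the prime `3` excluded -/
def ClG (T : Finset ℕ) : Prop := 3 ∉ T ∧ (T.filter fun q => q % 8 = 5).card % 2 = 0

theorem ClG_empty : ClG ∅ := by unfold ClG; simp

theorem ClG_ext (T : Finset ℕ) (h : ClG T) (r r' : ℕ) (hr : Nr r) (hr' : Nr r') (hrr : r ≠ r')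
    (hrT : r ∉ T) (hrT' : r' ∉ T) : ClG (insert r (insert r' T)) := by
  have hr1 : r ∉ insert r' T := by
    rw [Finset.mem_insert, not_or]
    exact ⟨hrr, hrT⟩
  refine ⟨?_, ?_⟩
  · rw [Finset.mem_insert, Finset.mem_insert, not_or, not_or]
    refine ⟨?_, ?_, h.1⟩
    · rintro rfl
      exact absurd hr.2.1 (by norm_num)
    · rintro rfl
      exact absurd hr'.2.1 (by norm_num)
  · have h2 := h.2
    rw [Finset.filter_insert, if_pos hr.2.1, Finset.filter_insert, if_pos hr'.2.1,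
      Finset.card_insert_of_notMem, Finset.card_insert_of_notMem]
    · omega
    · exact fun h => hrT' (Finset.mem_filter.1 h).1
    · rw [Finset.mem_insert, not_or]
      exact ⟨hrr, fun h => hrT (Finset.mem_filter.1 h).1⟩

/-- the sign of the product of the prime discriminants -/
theorem DD_sign {T : Finset ℕ} (hT : ∀ q ∈ T, InertT q) :
    DD T = (-1) ^ (T.filter fun q => q % 8 = 3).card * (pr T : ℤ) := by
  classical
  induction T using Finset.induction_on with
  | empty => unfold DD pr; simp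
  | insert a T ha ih =>
    have h1 := ih fun q hq => hT q (Finset.mem_insert_of_mem hq)
    have h2 := hT a (Finset.mem_insert_self a T)
    rw [DD_insert ha, h1, Pool.Agent.Y17.G.pr_insert ha, Finset.filter_insert]
    rcases h2.2.1 with h3 | h3
    · rw [if_pos h3, Finset.card_insert_of_notMem (fun h => ha (Finset.mem_filter.1 h).1), pow_succ]
      have e : qs a = -(a : ℤ) := by
        unfold qs
        rw [if_neg (by omega)]
      rw [e]
      push_cast
      ring
    · rw [if_neg (by omega)]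
      have e : qs a = (a : ℤ) := by
        unfold qs
        rw [if_pos (by omega)]
      rw [e]
      push_cast
      ring

/-- the general class, from the two halves -/
theorem WB_G (hneg : ∀ P S : Finset ℕ, (∀ p ∈ P, Sp p) → (∀ r ∈ S, InertT r) →
      Pool.Agent.Y17.G.Ty 1 S → Odd (Yd lres (xrZ (-(pr S : ℤ))) P) →
      WB ((pr P : ℤ) * (-(pr S : ℤ))))
    (hpos : ∀ P S : Finset ℕ, (∀ p ∈ P, Sp p) → (∀ r ∈ S, InertT r) → 3 ∉ S →
      Pool.Agent.Y17.G.Ty 0 S → (P ∪ S).Nonempty → Odd (Yd lres (xrZ (pr S : ℤ)) P) →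
      WB ((pr P : ℤ) * (pr S : ℤ)))
    {P T : Finset ℕ} (h : Ad ClG P T) : WB (disc P T) := by
  have h5 : (Pool.Agent.Y17.G.i5 T).card % 2 = 0 := h.cl.2
  unfold disc
  rw [DD_sign h.inn]
  rcases Nat.mod_two_eq_zero_or_one (T.filter fun q => q % 8 = 3).card with h3 | h3
  · rw [(Nat.even_iff.2 h3).neg_one_pow, one_mul]
    rcases (P ∪ T).eq_empty_or_nonempty with he | hne
    · obtain ⟨rfl, rfl⟩ := Finset.union_eq_empty.1 he
      have e : (pr ∅ : ℤ) * (pr ∅ : ℤ) = 1 := by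
        unfold pr
        simp
      rw [e]
      exact WB_one
    · exact hpos P T h.sp h.inn h.cl.1 ⟨h3, h5⟩ hne ((det_ind h.sp h.inn (Or.inl rfl)).2 h.odd)
  · rw [(Nat.odd_iff.2 h3).neg_one_pow, neg_one_mul]
    exact hneg P T h.sp h.inn ⟨h3, h5⟩ ((det_ind h.sp h.inn (Or.inr rfl)).2 h.odd)

/-- every pair of sets can be completed by one prime, in infinitely many ways -/
theorem inf_G {P T : Finset ℕ} (hP : ∀ p ∈ P, Sp p) (hT : ∀ q ∈ T, InertT q) (h3 : 3 ∉ T) :
    {q : ℕ | InertT q ∧ q ∉ T ∧ Ad ClG P (insert q T)}.Infinite := by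
  classical
  have key : ∀ e : ℕ, (e = 3 ∨ e = 5) →
      (∀ q : ℕ, q % 8 = e → q ∉ T → ((insert q T).filter fun q => q % 8 = 5).card % 2 = 0) →
      {q : ℕ | InertT q ∧ q ∉ T ∧ Ad ClG P (insert q T)}.Infinite := by
    intro e he hc
    refine ((inf_ind (T := T) hP he).sdiff (Set.finite_singleton 3)).mono ?_
    rintro q ⟨⟨h1, h2, h4, h5⟩, h6⟩
    refine ⟨h1, h4, hP, ?_, ⟨?_, hc q h2 h4⟩, h5⟩
    · intro r hr
      rcases Finset.mem_insert.1 hr with rfl | hr
      · exact h1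
      · exact hT r hr
    · rw [Finset.mem_insert, not_or]
      exact ⟨fun hh => h6 hh.symm, h3⟩
  rcases Nat.mod_two_eq_zero_or_one (T.filter fun q => q % 8 = 5).card with h5 | h5
  · refine key 3 (Or.inl rfl) fun q hq hqT => ?_
    rw [Finset.filter_insert, if_neg (by omega)]
    exact h5
  · refine key 5 (Or.inr rfl) fun q hq hqT => ?_
    rw [Finset.filter_insert, if_pos hq,
      Finset.card_insert_of_notMem (fun h => hqT (Finset.mem_filter.1 h).1)]
    omega

end Pool.Agent.Y687.MQ
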